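import Pool.Agent.W917.CB.D2
import Pool.Agent.W29.CB.D1

/-!
# Averaging over the unitaries of the corner, with the norm bound (adapted from W917.CB.D2, helper29)
-/

set_option autoImplicit false

open Filter Topology Complex
open scoped InnerProductSpace

namespace Pool.Agent.W29.CB.D2

open Pool.Agent.W662.CB Pool.Agent.W917.CB.D2 Pool.Agent.W29.CB.D1

def S_D2n : Prop := ∀ (K : Type) [NormedAddCommGroup K] [InnerProductSpace ℂ K] [CompleteSpace K]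
  (A B : VonNeumannAlgebra K), (∀ x : K →L[ℂ] K, x ∈ A → x ∈ B) →
  ∀ p : K →L[ℂ] K, p ∈ A → p * p = p → star p = p → ∀ ζ : K, p ζ = ζ →
  (∀ Z : K →L[ℂ] K, Z ∈ B → p * Z * p = Z → ‖Z ζ‖ = ‖star Z ζ‖) →
  (∀ Z : K →L[ℂ] K, Z ∈ B → p * Z * p = Z → Z ζ = 0 → Z = 0) →
  ∀ (Z : K →L[ℂ] K) (r : ℝ), Z ∈ B → p * Z * p = Z →
  (∀ u : K →L[ℂ] K, u ∈ A → star u * u = p → u * star u = p → ‖(u * Z - Z * u) ζ‖ ≤ r) →
  ∃ Z0 : K →L[ℂ] K, Z0 ∈ B ∧ p * Z0 * p = Z0 ∧ ‖Z0‖ ≤ ‖Z‖ ∧ ‖(Z - Z0) ζ‖ ≤ r ∧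
    ∀ u : K →L[ℂ] K, u ∈ A → star u * u = p → u * star u = p → u * Z0 = Z0 * u

/-- an element commuting with the factor `A` is determined, with its norm, by its corner -/
theorem normR {K : Type} [NormedAddCommGroup K] [InnerProductSpace ℂ K] [CompleteSpace K]
    (A : VonNeumannAlgebra K)
    (hfac : ∀ Z : K →L[ℂ] K, Z ∈ A → (∀ S : K →L[ℂ] K, S ∈ A → S * Z = Z * S) →
      ∃ c : ℂ, Z = c • 1)
    (p : K →L[ℂ] K) (hp : p ∈ A) (hpp : p * p = p) (hps : star p = p) (hp0 : p ≠ 0)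
    (R : K →L[ℂ] K) (hR : ∀ S : K →L[ℂ] K, S ∈ A → S * R = R * S) : ‖R‖ = ‖R * p‖ := by
  obtain ⟨C, hC⟩ : ∃ C : StarSubalgebra ℂ (K →L[ℂ] K),
      C = StarSubalgebra.centralizer ℂ (A : Set (K →L[ℂ] K)) := ⟨_, rfl⟩
  have hmem : ∀ X : K →L[ℂ] K, X ∈ C ↔ ∀ S : K →L[ℂ] K, S ∈ A → S * X = X * S := by
    intro X
    rw [hC, StarSubalgebra.mem_centralizer_iff]
    constructor
    · intro h S hS
      exact (h S hS).1
    · intro h S hS
      exact ⟨h S hS, h (star S) (star_mem hS)⟩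
  have hcl : IsClosed (C : Set (K →L[ℂ] K)) := by
    rw [hC]
    exact Set.isClosed_centralizer _
  have hdens : Dense (Submodule.span ℂ (gen A p) : Set K) :=
    Submodule.dense_iff_topologicalClosure_eq_top.mpr (dense_gen A hfac p hp hp0)
  have hcomm : ∀ X : C, (X : K →L[ℂ] K) * p = p * (X : K →L[ℂ] K) := fun X =>
    (((hmem _).1 X.2) p hp).symm
  let φ : C →⋆ₙₐ[ℂ] (K →L[ℂ] K) :=
    { toFun := fun X => (X : K →L[ℂ] K) * p
      map_smul' := fun c X => by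
        show (c • (X : K →L[ℂ] K)) * p = c • ((X : K →L[ℂ] K) * p)
        exact smul_mul_assoc _ _ _
      map_zero' := by
        show (0 : K →L[ℂ] K) * p = 0
        exact zero_mul p
      map_add' := fun X Y => by
        show ((X : K →L[ℂ] K) + (Y : K →L[ℂ] K)) * p = _
        exact add_mul _ _ _
      map_mul' := fun X Y => by
        show ((X : K →L[ℂ] K) * (Y : K →L[ℂ] K)) * p = ((X : K →L[ℂ] K) * p) * ((Y : K →L[ℂ] K) * p)
        rw [mul_assoc (X : K →L[ℂ] K) p, ← mul_assoc p, ← hcomm Y, mul_assoc (Y : K →L[ℂ] K) p p, hpp,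
          mul_assoc]
      map_star' := fun X => by
        show star (X : K →L[ℂ] K) * p = star ((X : K →L[ℂ] K) * p)
        rw [star_mul, hps]
        have h := congrArg star (hcomm X)
        rw [star_mul, star_mul, hps] at h
        exact h.symm }
  have hinj : Function.Injective φ := by
    intro X Y hXY
    have h1 : (X : K →L[ℂ] K) * p = (Y : K →L[ℂ] K) * p := hXY
    refine Subtype.ext ?_
    refine ContinuousLinearMap.ext_on hdens ?_
    rintro w ⟨S, hS, v, rfl⟩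
    have h2 := congrArg (fun T : K →L[ℂ] K => T (p v)) ((hmem _).1 X.2 S hS)
    have h3 := congrArg (fun T : K →L[ℂ] K => T (p v)) ((hmem _).1 Y.2 S hS)
    have h4 := congrArg (fun T : K →L[ℂ] K => T v) h1
    change S ((X : K →L[ℂ] K) (p v)) = (X : K →L[ℂ] K) (S (p v)) at h2
    change S ((Y : K →L[ℂ] K) (p v)) = (Y : K →L[ℂ] K) (S (p v)) at h3
    change (X : K →L[ℂ] K) (p v) = (Y : K →L[ℂ] K) (p v) at h4
    show (X : K →L[ℂ] K) (S (p v)) = (Y : K →L[ℂ] K) (S (p v))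
    rw [← h2, ← h3, h4]
  have h5 := NonUnitalStarAlgHom.norm_map φ hinj ⟨R, (hmem R).2 hR⟩
  exact h5.symm

theorem d2n : S_D2n := by
  intro K _ _ _ A B hAB p hpA hp hs ζ hζ hnorm hsep Z r hZB hZp hZr
  have hpB : p ∈ B := hAB p hpA
  have hpU : p ∈ UU A p := ⟨hpA, by rw [hs, hp], by rw [hs, hp]⟩
  have hZC : Z ∈ C0 A B p Z ζ r := self_mem hAB hp hs hnorm hZB hZp hZr
  obtain ⟨η, hη, hmin'⟩ := min_elt ((fun W : K →L[ℂ] K => W ζ) '' C0 A B p Z ζ r)
    ⟨Z ζ, ⟨Z, hZC, rfl⟩⟩ (by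
      rintro _ ⟨W1, hW1, rfl⟩ _ ⟨W2, hW2, rfl⟩ a b ha hb hab
      exact ⟨(a : ℂ) • W1 + (b : ℂ) • W2, hconv hW1 hW2 ha hb hab, rfl⟩)
  obtain ⟨x, hxS, hx⟩ := mem_closure_iff_seq_limit.1 hη
  choose W hWC hWx using hxS
  have hWx' : ∀ n, W n ζ = x n := hWx
  have hGle : ((hyperfilter ℕ : Ultrafilter ℕ) : Filter ℕ) ≤ atTop := Nat.hyperfilter_le_atTop
  obtain ⟨Z0, hZ0norm, hlim⟩ := wlim (hyperfilter ℕ) ‖Z‖ W (fun n => (hWC n).2.2.1)
  have hZ0B : Z0 ∈ B := wlim_mem (hyperfilter ℕ) B W (fun n => (hWC n).1) Z0 hlim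
  have hZ0p : p * Z0 * p = Z0 := by
    ext b
    refine ext_inner_left ℂ fun a => ?_
    have h1 : Tendsto (fun n => ⟪star p a, W n (p b)⟫_ℂ) (hyperfilter ℕ)
        (𝓝 ⟪star p a, Z0 (p b)⟫_ℂ) := hlim _ _
    have h2 := hlim a b
    have h3 : ∀ n, ⟪star p a, W n (p b)⟫_ℂ = ⟪a, W n b⟫_ℂ := by
      intro n
      rw [← inner_star]
      have := congrArg (fun T : K →L[ℂ] K => T b) (hWC n).2.1
      simp only [mul_apply_eq_comp] at this
      rw [this]
    simp only [h3] at h1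
    have h4 := tendsto_nhds_unique h1 h2
    rw [← inner_star] at h4
    exact h4
  have hZ0η : Z0 ζ = η := by
    refine ext_inner_left ℂ fun a => ?_
    have h1 := hlim a ζ
    simp only [hWx'] at h1
    have h2 : Tendsto (fun n => ⟪a, x n⟫_ℂ) (hyperfilter ℕ) (𝓝 ⟪a, η⟫_ℂ) :=
      (tendsto_const_nhds.inner hx).mono_left hGle
    exact tendsto_nhds_unique h1 h2
  refine ⟨Z0, hZ0B, hZ0p, hZ0norm, ?_, ?_⟩
  · have h1 : ∀ n, ‖Z ζ - x n‖ ≤ r := by
      intro n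
      have h2 := (hWC n).2.2.2 p hpU
      rw [hs, (hWC n).2.1] at h2
      rw [← hWx' n]
      exact h2
    have h2 : Tendsto (fun n => ‖Z ζ - x n‖) atTop (𝓝 ‖Z ζ - η‖) :=
      (tendsto_const_nhds.sub hx).norm
    have h3 := le_of_tendsto' h2 h1
    have h4 : (Z - Z0) ζ = Z ζ - η := by
      rw [← hZ0η]
      rfl
    rw [h4]
    exact h3
  · intro u hu1 hu2 hu3
    have huU : u ∈ UU A p := ⟨hu1, hu2, hu3⟩
    have huB : u ∈ B := hAB u hu1
    obtain ⟨hZ01, hZ02⟩ := corner hp hZ0p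
    have hpu := left_p hp hs hu3
    have hsu : star u * p = star u := star_right hp hs hu3
    -- the norm
    have hn : ‖(u * Z0 * star u) ζ‖ = ‖η‖ := by
      have h1 : ‖(u * Z0 * star u) ζ‖ = ‖(Z0 * star u) ζ‖ := by
        rw [mul_assoc]
        exact nl huU (by rw [← mul_assoc, hZ01]) ζ
      rw [h1, nr hAB hp hs hnorm huU hZ0B hZ0p, hZ0η]
    -- the inner product
    have hin : ‖η‖ ^ 2 ≤ (⟪η, (u * Z0 * star u) ζ⟫_ℂ).re := by
      have h1 : Tendsto (fun n => ⟪star u η, W n (star u ζ)⟫_ℂ) (hyperfilter ℕ)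
          (𝓝 ⟪star u η, Z0 (star u ζ)⟫_ℂ) := hlim _ _
      have h2 : Tendsto (fun n => (⟪star u η, W n (star u ζ)⟫_ℂ).re) (hyperfilter ℕ)
          (𝓝 (⟪star u η, Z0 (star u ζ)⟫_ℂ).re) :=
        (Complex.continuous_re.tendsto _).comp h1
      have h3 : ∀ n, ‖η‖ ^ 2 ≤ (⟪star u η, W n (star u ζ)⟫_ℂ).re := by
        intro n
        rw [← inner_star]
        exact hmin' _ (subset_closure ⟨u * W n * star u, hconj hAB hp hs (hWC n) huU, rfl⟩)
      have h4 := ge_of_tendsto' h2 h3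
      rw [← inner_star] at h4
      exact h4
    have heq : (u * Z0 * star u) ζ = η := by
      have h1 : ‖η - (u * Z0 * star u) ζ‖ ^ 2 ≤ 0 := by
        have h2 := @norm_sub_sq ℂ K _ _ _ η ((u * Z0 * star u) ζ)
        rw [h2, hn]
        have h3 : RCLike.re ⟪η, (u * Z0 * star u) ζ⟫_ℂ = (⟪η, (u * Z0 * star u) ζ⟫_ℂ).re := rfl
        rw [h3]
        linarith
      have h4 : ‖η - (u * Z0 * star u) ζ‖ = 0 := by
        have := norm_nonneg (η - (u * Z0 * star u) ζ)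
        nlinarith
      exact (sub_eq_zero.1 (norm_eq_zero.1 h4)).symm
    have hzero : u * Z0 * star u - Z0 = 0 := by
      refine hsep _ (sub_mem (mul_mem (mul_mem huB hZ0B) (star_mem huB)) hZ0B) ?_ ?_
      · refine ofcorner ?_ ?_
        · rw [mul_sub, ← mul_assoc, ← mul_assoc, hpu, hZ01]
        · rw [sub_mul, mul_assoc, hsu, hZ02]
      · have h6 : (u * Z0 * star u - Z0) ζ = (u * Z0 * star u) ζ - Z0 ζ := rfl
        rw [h6, heq, hZ0η, sub_self]
    have h5 : u * Z0 * star u = Z0 := sub_eq_zero.1 hzero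
    calc u * Z0 = u * (Z0 * p) := by rw [hZ02]
      _ = u * Z0 * star u * u := by
        rw [← hu2]
        simp only [mul_assoc]
      _ = Z0 * u := by rw [h5]

end Pool.Agent.W29.CB.D2
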