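import Pool.Agent.W29.CB.F0

/-!
# All small boxes (adapted from W158.CB.F1, helper29)
-/

set_option autoImplicit false

open MeasureTheory Filter Topology Complex
open scoped InnerProductSpace ENNReal

namespace Pool.Agent.W29.CB

open Pool.Agent.W662.CB Pool.Agent.W29.CB.F0

noncomputable section

def S_F1f : Prop := ∀ (H K : Type) [NormedAddCommGroup H] [InnerProductSpace ℂ H] [CompleteSpace H]
  [NormedAddCommGroup K] [InnerProductSpace ℂ K] [CompleteSpace K]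
  (M N : VonNeumannAlgebra H) (ξ : H) (U : ℝ → H →L[ℂ] H), Std M N ξ U →
  ∀ (κ : (H →L[ℂ] H) →⋆ₐ[ℂ] (K →L[ℂ] K)) (V : ℝ → K →L[ℂ] K)
  (A B : VonNeumannAlgebra K), (∀ x : K →L[ℂ] K, x ∈ A → x ∈ B) →
  (∀ Z : K →L[ℂ] K, Z ∈ B → Aff M κ V Z) → (∀ Z : K →L[ℂ] K, Z ∈ A → Aff N κ V Z) →
  (∀ x : H →L[ℂ] H, x ∈ M → (∀ t : ℝ, sgm U t x = x) → κ x ∈ B) →
  (∀ Z : K →L[ℂ] K, Z ∈ A → (∀ S : K →L[ℂ] K, S ∈ A → S * Z = Z * S) → ∃ c : ℂ, Z = c • 1) →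
  (∀ t : ℝ, V t * κ (U (-t)) ∈ A) →
  ∀ x : H →L[ℂ] H, x ∈ relBicentralizer N M ξ → (∀ t : ℝ, sgm U t x = x) →
  ∀ ρ : ℝ, 0 < ρ → ∃ δ : ℝ, 0 < δ ∧
  ∀ (J : H →L[ℂ] K) (E : ℂ → K →L[ℂ] K) (T δ' : ℝ), δ' ≤ δ → BoxP U κ V J E T δ' → E 0 ∈ A →
  ∃ R : K →L[ℂ] K, R ∈ B ∧ (∀ S : K →L[ℂ] K, S ∈ A → S * R = R * S) ∧
    ‖κ x (J ξ) - R (J ξ)‖ ≤ ρ

theorem f1f (hf0 : S_F0f) (h7 : S_B7) (h8 : S_B8) (h9 : S_B9) (hA7 : S_A7) (hc7 : S_C7) :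
    S_F1f := by
  intro H K _ _ _ _ _ _ M N ξ U hStd κ V A B hAB hB hA hκ hfac hVA x hx hfix ρ hρ
  have hxM : x ∈ M := hx.1
  obtain ⟨s, hs0, hs1, hsρ⟩ : ∃ s : ℝ, 0 < s ∧ s ≤ 1 ∧ 16 * s ≤ ρ := by
    refine ⟨min 1 (ρ / 16), lt_min one_pos (by positivity), min_le_left _ _, ?_⟩
    have := min_le_right (1 : ℝ) (ρ / 16)
    linarith
  have hs2 : 0 < s ^ 2 := by positivity
  -- `L`
  obtain ⟨L, hL0, hL⟩ : ∃ L : ℝ, 0 < L ∧ 8 * ‖x‖ ^ 2 / L ^ 2 ≤ s ^ 2 := by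
    refine ⟨(3 * ‖x‖ + 1) / s, by positivity, ?_⟩
    rw [div_le_iff₀ (by positivity), div_pow]
    have h1 : s ^ 2 * ((3 * ‖x‖ + 1) ^ 2 / s ^ 2) = (3 * ‖x‖ + 1) ^ 2 := by
      field_simp
    rw [h1]
    nlinarith [norm_nonneg x, sq_nonneg ‖x‖]
  obtain ⟨A0, hA0, hA1⟩ := hA7 H M N ξ hStd.unit hStd.le x hx L (s ^ 2) hL0 hs2
  -- `δ`
  obtain ⟨δ, hδ0, hδ1, hδA, hδx⟩ : ∃ δ : ℝ, 0 < δ ∧ δ ≤ 1 ∧ 20 * A0 * (3 * δ) ^ 2 ≤ s ^ 2 ∧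
      ‖x‖ * δ ≤ s ^ 2 := by
    have hpos : 0 < 180 * A0 + ‖x‖ + 1 := by positivity
    refine ⟨min 1 (s ^ 2 / (180 * A0 + ‖x‖ + 1)), lt_min one_pos (by positivity),
      min_le_left _ _, ?_, ?_⟩
    · have h1 : min 1 (s ^ 2 / (180 * A0 + ‖x‖ + 1)) ≤ 1 := min_le_left _ _
      have h2 : min 1 (s ^ 2 / (180 * A0 + ‖x‖ + 1)) ≤ s ^ 2 / (180 * A0 + ‖x‖ + 1) :=
        min_le_right _ _
      have h0 : 0 < min 1 (s ^ 2 / (180 * A0 + ‖x‖ + 1)) := lt_min one_pos (by positivity)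
      rw [le_div_iff₀ hpos] at h2
      generalize min 1 (s ^ 2 / (180 * A0 + ‖x‖ + 1)) = δ at h0 h1 h2 ⊢
      have h3 : δ ^ 2 ≤ δ := by nlinarith
      have h4 : 20 * A0 * (3 * δ) ^ 2 = (180 * A0) * δ ^ 2 := by ring
      rw [h4]
      calc (180 * A0) * δ ^ 2 ≤ (180 * A0) * δ := mul_le_mul_of_nonneg_left h3 (by positivity)
        _ ≤ δ * (180 * A0 + ‖x‖ + 1) := by nlinarith [norm_nonneg x]
        _ ≤ s ^ 2 := h2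
    · have h2 : min 1 (s ^ 2 / (180 * A0 + ‖x‖ + 1)) ≤ s ^ 2 / (180 * A0 + ‖x‖ + 1) :=
        min_le_right _ _
      have h0 : 0 < min 1 (s ^ 2 / (180 * A0 + ‖x‖ + 1)) := lt_min one_pos (by positivity)
      rw [le_div_iff₀ hpos] at h2
      generalize min 1 (s ^ 2 / (180 * A0 + ‖x‖ + 1)) = δ at h0 h2 ⊢
      nlinarith [norm_nonneg x]
  refine ⟨δ, hδ0, fun J E T δ' hδ' hBox hE0 => ?_⟩
  have hδ'0 : 0 ≤ δ' := hBox.δ_nonneg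
  -- the estimate for one `Y`
  have hY : ∀ Y : K →L[ℂ] K, Y ∈ A → E 0 * Y * E 0 = Y → ‖Y‖ ≤ 1 →
      ‖(Y * κ x - κ x * Y) (J ξ)‖ ≤ 2 * s := by
    intro Y hYA hYE hY1
    obtain ⟨hC1, hC2, hC3⟩ := h7 H K M N ξ U κ V J E T δ' hStd hBox Y (hA Y hYA) hYE hY1
    obtain ⟨C1, C2, hk1, hk2, hs1', hs2'⟩ :=
      h8 H K M N ξ U κ V J E T δ' hStd hBox Y (hA Y hYA) hYE hY1
    have hsum : ∀ F : Finset ℤ,
        ∑ m ∈ F, ‖(cf J E T Y m * x - x * cf J E T Y m) ξ‖ ^ 2 ≤ (2 * s) ^ 2 := by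
      intro F
      have h1 := hc7 H M N ξ U hStd T L (s ^ 2) A0 (3 * δ') x hxM hfix hL0 hs2.le hA0 hA1 F
        (cf J E T Y) C1 C2 hC1 (hC2 F) (hC3 F) hk1 hk2 (hs1' F) (hs2' F)
      have h2 : 20 * A0 * (3 * δ') ^ 2 ≤ 20 * A0 * (3 * δ) ^ 2 := by
        apply mul_le_mul_of_nonneg_left _ (by positivity)
        apply pow_le_pow_left₀ (by positivity)
        linarith
      have h3 : (2 * s) ^ 2 = 2 * s ^ 2 + s ^ 2 + s ^ 2 := by ring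
      rw [h3]
      linarith
    have h4 := h9 H K ξ U κ V J E T δ' hBox Y x ((2 * s) ^ 2) hYE hsum
    exact (sq_le_sq₀ (norm_nonneg _) (by positivity)).1 h4
  obtain ⟨R, hRB, hRA, hc⟩ := hf0 H K M N ξ U hStd κ V A B hAB hB hA hfac hVA J E T δ' hBox hE0 x
    (2 * s) hxM (hκ x hxM hfix) (by positivity) hY
  refine ⟨R, hRB, hRA, hc.trans ?_⟩
  have h6 : ‖x‖ * δ' ≤ ‖x‖ * δ := mul_le_mul_of_nonneg_left hδ' (norm_nonneg _)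
  have h7' : s ^ 2 ≤ s := by nlinarith
  have h8' : 2 * (2 * s + 2 * ‖x‖ * δ') ≤ 8 * s := by nlinarith
  linarith

end

end Pool.Agent.W29.CB
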