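import Pool.Agent.W29.CB.Lin
import Pool.Agent.W29.CB.D2

/-!
# Norm bounds, products and adjoints (helper29)
-/

set_option autoImplicit false

open MeasureTheory Filter Topology Complex
open scoped InnerProductSpace ENNReal

namespace Pool.Agent.W29.CB

open Pool.Agent.W662.CB Pool.Agent.W29.CB.F0 Pool.Agent.W29.CB.D1 Pool.Agent.W29.CB.D2
open Pool.Agent.W428.CB.F0 (norm_proj_le pu up norm_u_le kap_le)

noncomputable section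

def S_F0n : Prop := ∀ (H K : Type) [NormedAddCommGroup H] [InnerProductSpace ℂ H] [CompleteSpace H]
  [NormedAddCommGroup K] [InnerProductSpace ℂ K] [CompleteSpace K]
  (M N : VonNeumannAlgebra H) (ξ : H) (U : ℝ → H →L[ℂ] H), Std M N ξ U →
  ∀ (κ : (H →L[ℂ] H) →⋆ₐ[ℂ] (K →L[ℂ] K)) (V : ℝ → K →L[ℂ] K)
  (A B : VonNeumannAlgebra K), (∀ x : K →L[ℂ] K, x ∈ A → x ∈ B) →
  (∀ Z : K →L[ℂ] K, Z ∈ B → Aff M κ V Z) → (∀ Z : K →L[ℂ] K, Z ∈ A → Aff N κ V Z) →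
  (∀ Z : K →L[ℂ] K, Z ∈ A → (∀ S : K →L[ℂ] K, S ∈ A → S * Z = Z * S) → ∃ c : ℂ, Z = c • 1) →
  (∀ t : ℝ, V t * κ (U (-t)) ∈ A) →
  ∀ (J : H →L[ℂ] K) (E : ℂ → K →L[ℂ] K) (T δ : ℝ), BoxP U κ V J E T δ → E 0 ∈ A →
  ∀ (x : H →L[ℂ] H) (r : ℝ), x ∈ M → κ x ∈ B → 0 ≤ r →
  (∀ Y : K →L[ℂ] K, Y ∈ A → E 0 * Y * E 0 = Y → ‖Y‖ ≤ 1 →
    ‖(Y * κ x - κ x * Y) (J ξ)‖ ≤ r) →
  ∃ R : K →L[ℂ] K, R ∈ B ∧ (∀ S : K →L[ℂ] K, S ∈ A → S * R = R * S) ∧ ‖R‖ ≤ ‖x‖ ∧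
    ‖(κ x - R) (E (-I / 2) (J ξ))‖ ≤ r + 2 * ‖x‖ * δ

theorem f0n : S_F0n := by
  intro H K _ _ _ _ _ _ M N ξ U hstd κ V A B hAB hBM hAN hfac hVA J E T δ hbox hEA x r hx hκx hr hY
  set p : K →L[ℂ] K := E 0 with hp
  have hpp : p * p = p := by rw [hp, ← hbox.E_add, add_zero]
  have hps : star p = p := by rw [hp, hbox.E_star, map_zero, neg_zero]
  set ζ : K := E (-I / 2) (J ξ) with hζ
  have hpζ : p ζ = ζ := by
    have := hbox.E_add 0 (-I / 2)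
    rw [zero_add] at this
    rw [hζ]
    conv_rhs => rw [this]
    rfl
  have hJn : ∀ v : H, ‖J v‖ = ‖v‖ := (pB1 H K M ξ U κ V J E T δ hstd.modular hbox).2.2.2.2.1
  have hJξ : ‖J ξ‖ = 1 := by rw [hJn, hstd.unit]
  have hζJ : ‖ζ - J ξ‖ ≤ δ := by
    have e1 : ζ - J ξ = (E (-I / 2) - E 0) (J ξ) := by
      rw [_root_.sub_apply, hbox.E_J]
    rw [e1]
    calc ‖(E (-I / 2) - E 0) (J ξ)‖ ≤ ‖E (-I / 2) - E 0‖ * ‖J ξ‖ := ContinuousLinearMap.le_opNorm _ _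
      _ ≤ δ := by rw [hJξ, mul_one]; exact hbox.nE3
  have hp0 : p ≠ 0 := by
    intro h0
    have h1 : p (J ξ) = J ξ := hbox.E_J ξ
    rw [h0] at h1
    have h2 : J ξ = 0 := h1.symm
    rw [h2, norm_zero] at hJξ
    exact zero_ne_one hJξ
  have hpA : p ∈ A := hEA
  have hκp : κ x * p = p * κ x := hbox.κ_E x 0
  have hZB : κ x * p ∈ B := mul_mem hκx (hAB p hpA)
  have hZp : p * (κ x * p) * p = κ x * p := by
    rw [← mul_assoc, ← hκp, mul_assoc, mul_assoc, hpp, hpp]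
  have hκn : ‖κ x‖ ≤ ‖x‖ := kap_le κ x
  have hδ := hbox.δ_nonneg
  have hu : ∀ u : K →L[ℂ] K, u ∈ A → star u * u = p → u * star u = p →
      ‖(u * (κ x * p) - (κ x * p) * u) ζ‖ ≤ r + 2 * ‖x‖ * δ := by
    intro u huA hu1 hu2
    have hpu := pu p u hpp hps hu2
    have hup := up p u hpp hps hu1
    have hun := norm_u_le p u hpp hps hu1
    have e1 : (u * (κ x * p) - (κ x * p) * u) ζ = (u * κ x - κ x * u) ζ := by
      have e2 : (κ x * p) * u = κ x * u := by rw [mul_assoc, hpu]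
      rw [e2]
      change u (κ x (p ζ)) - κ x (u ζ) = u (κ x ζ) - κ x (u ζ)
      rw [hpζ]
    have e3 : (u * κ x - κ x * u) ζ = (u * κ x - κ x * u) (J ξ) +
        (u * κ x - κ x * u) (ζ - J ξ) := by
      rw [map_sub]; abel
    have e4 : ‖(u * κ x - κ x * u) (J ξ)‖ ≤ r :=
      hY u huA (by rw [hpu, hup]) hun
    have e5 : ‖u * κ x - κ x * u‖ ≤ 2 * ‖x‖ := by
      calc ‖u * κ x - κ x * u‖ ≤ ‖u * κ x‖ + ‖κ x * u‖ := norm_sub_le _ _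
        _ ≤ ‖u‖ * ‖κ x‖ + ‖κ x‖ * ‖u‖ := add_le_add (norm_mul_le _ _) (norm_mul_le _ _)
        _ ≤ 1 * ‖x‖ + ‖x‖ * 1 := by gcongr
        _ = 2 * ‖x‖ := by ring
    rw [e1, e3]
    calc ‖(u * κ x - κ x * u) (J ξ) + (u * κ x - κ x * u) (ζ - J ξ)‖
        ≤ ‖(u * κ x - κ x * u) (J ξ)‖ + ‖(u * κ x - κ x * u) (ζ - J ξ)‖ := norm_add_le _ _
      _ ≤ r + ‖u * κ x - κ x * u‖ * ‖ζ - J ξ‖ :=
        add_le_add e4 (ContinuousLinearMap.le_opNorm _ _)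
      _ ≤ r + 2 * ‖x‖ * δ := by gcongr
  obtain ⟨Z0, hZ0B, hZ0p, hZ0norm, hZ0n, hZ0u⟩ := d2n K A B hAB p hpA hpp hps ζ hpζ
    (fun Z hZ hZp => pB5 H K M ξ U κ V J E T δ hstd.modular hbox Z (hBM Z hZ) hZp)
    (fun Z hZ hZp hZ0 => pB6 H K M ξ U κ V J E T δ hstd.modular hstd.sep hbox Z (hBM Z hZ) hZp hZ0)
    (κ x * p) (r + 2 * ‖x‖ * δ) hZB hZp hu
  have hcomm := pD3 K A p hpA hpp hps Z0 hZ0p hZ0u
  obtain ⟨R, hRB, hRA, hRp⟩ := d1f K A B hAB hfac p hpA hpp hps hp0 Z0 hZ0B hZ0p hcomm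
  refine ⟨R, hRB, hRA, ?_, ?_⟩
  · rw [normR A hfac p hpA hpp hps hp0 R hRA, hRp]
    refine hZ0norm.trans ?_
    calc ‖κ x * p‖ ≤ ‖κ x‖ * ‖p‖ := norm_mul_le _ _
      _ ≤ ‖x‖ * 1 := mul_le_mul hκn (norm_proj_le p hpp hps) (norm_nonneg _) (norm_nonneg _)
      _ = ‖x‖ := mul_one _
  · have e6 : (κ x * p - Z0) ζ = (κ x - R) ζ := by
      rw [← hRp]
      change κ x (p ζ) - R (p ζ) = κ x ζ - R ζ
      rw [hpζ]
    rw [e6] at hZ0n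
    exact hZ0n

/-- everything about one box -/
structure BoxR {H K : Type} [NormedAddCommGroup H] [InnerProductSpace ℂ H] [CompleteSpace H]
    [NormedAddCommGroup K] [InnerProductSpace ℂ K] [CompleteSpace K]
    (B : VonNeumannAlgebra K) (κ : (H →L[ℂ] H) →⋆ₐ[ℂ] (K →L[ℂ] K)) (p : K →L[ℂ] K)
    (E2 : K →L[ℂ] K) (ζ : K) (x : H →L[ℂ] H) (R : K →L[ℂ] K) (ρ : ℝ) : Prop where
  κB : κ x ∈ B
  RB : R ∈ B
  Rp : R * p = p * R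
  κp : κ x * p = p * κ x
  RE : R * E2 = E2 * R
  κE : κ x * E2 = E2 * κ x
  REs : star R * E2 = E2 * star R
  κEs : star (κ x) * E2 = E2 * star (κ x)
  nR : ‖R‖ ≤ ‖x‖
  nκ : ‖κ x‖ ≤ ‖x‖
  est : ‖(κ x - R) ζ‖ ≤ ρ

section box

variable {H K : Type} [NormedAddCommGroup H] [InnerProductSpace ℂ H] [CompleteSpace H]
    [NormedAddCommGroup K] [InnerProductSpace ℂ K] [CompleteSpace K]
    {B : VonNeumannAlgebra K} {κ : (H →L[ℂ] H) →⋆ₐ[ℂ] (K →L[ℂ] K)} {p E2 : K →L[ℂ] K} {ζ : K}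

theorem corn {D : K →L[ℂ] K} (hpp : p * p = p) (hD : D * p = p * D) : p * (D * p) * p = D * p := by
  rw [← mul_assoc, ← hD, mul_assoc D p p, hpp, mul_assoc, hpp]

theorem starD {D : K →L[ℂ] K} (hps : star p = p) (hD : D * p = p * D) :
    star D * p = p * star D := by
  have h := congrArg star hD
  rw [star_mul, star_mul, hps] at h
  exact h.symm

/-- traciality for adjoints -/
theorem adj (hpp : p * p = p) (hps : star p = p) (hpB : p ∈ B) (hpζ : p ζ = ζ)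
    (htr : ∀ Z : K →L[ℂ] K, Z ∈ B → p * Z * p = Z → ‖Z ζ‖ = ‖star Z ζ‖)
    {D : K →L[ℂ] K} (hDB : D ∈ B) (hD : D * p = p * D) : ‖star D ζ‖ = ‖D ζ‖ := by
  have h1 := htr (D * p) (mul_mem hDB hpB) (corn hpp hD)
  rw [star_mul, hps, ← starD hps hD] at h1
  change ‖D (p ζ)‖ = ‖star D (p ζ)‖ at h1
  rw [hpζ] at h1
  exact h1.symm

/-- traciality for products -/
theorem trc (hpp : p * p = p) (hps : star p = p) (hpB : p ∈ B) (hpζ : p ζ = ζ)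
    (htr : ∀ Z : K →L[ℂ] K, Z ∈ B → p * Z * p = Z → ‖Z ζ‖ = ‖star Z ζ‖)
    {D X : K →L[ℂ] K} (hDB : D ∈ B) (hD : D * p = p * D) (hXB : X ∈ B) (hX : X * p = p * X) :
    ‖D (X ζ)‖ ≤ ‖X‖ * ‖D ζ‖ := by
  have hDX : (D * X) * p = p * (D * X) := by rw [mul_assoc, hX, ← mul_assoc, hD, mul_assoc]
  have h1 := adj hpp hps hpB hpζ htr (mul_mem hDB hXB) hDX
  have h2 : ‖D (X ζ)‖ = ‖star (D * X) ζ‖ := by rw [h1]; rfl
  rw [h2, star_mul]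
  calc ‖(star X * star D) ζ‖ = ‖star X (star D ζ)‖ := rfl
    _ ≤ ‖star X‖ * ‖star D ζ‖ := ContinuousLinearMap.le_opNorm _ _
    _ = ‖X‖ * ‖D ζ‖ := by rw [norm_star, adj hpp hps hpB hpζ htr hDB hD]

theorem prodEst (hpp : p * p = p) (hps : star p = p) (hpB : p ∈ B) (hpζ : p ζ = ζ)
    (htr : ∀ Z : K →L[ℂ] K, Z ∈ B → p * Z * p = Z → ‖Z ζ‖ = ‖star Z ζ‖) {j : K}
    (hj : j = E2 ζ) (hE2 : ‖E2‖ ≤ 2) {x y : H →L[ℂ] H} {R S : K →L[ℂ] K} {ρ : ℝ}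
    (h1 : BoxR B κ p E2 ζ x R ρ) (h2 : BoxR B κ p E2 ζ y S ρ) :
    ‖(R * S) j - (κ x * κ y) j‖ ≤ 2 * (‖x‖ * ρ + ‖y‖ * ρ) := by
  have hE : (R * S) j - (κ x * κ y) j = -(E2 ((κ x - R) (κ y ζ)) + E2 (R ((κ y - S) ζ))) := by
    have a1 : ∀ v, R (E2 v) = E2 (R v) := fun v => congrArg (fun T : K →L[ℂ] K => T v) h1.RE
    have a2 : ∀ v, S (E2 v) = E2 (S v) := fun v => congrArg (fun T : K →L[ℂ] K => T v) h2.RE
    have a3 : ∀ v, κ x (E2 v) = E2 (κ x v) := fun v => congrArg (fun T : K →L[ℂ] K => T v) h1.κE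
    have a4 : ∀ v, κ y (E2 v) = E2 (κ y v) := fun v => congrArg (fun T : K →L[ℂ] K => T v) h2.κE
    change R (S j) - κ x (κ y j) = -(E2 (κ x (κ y ζ) - R (κ y ζ)) + E2 (R (κ y ζ - S ζ)))
    rw [hj, a2, a1, a4, a3]
    simp only [map_sub]
    abel
  rw [hE, norm_neg]
  have hRB : κ x - R ∈ B := sub_mem h1.κB h1.RB
  have hRp : (κ x - R) * p = p * (κ x - R) := by rw [sub_mul, mul_sub, h1.κp, h1.Rp]
  have b1 : ‖(κ x - R) (κ y ζ)‖ ≤ ‖y‖ * ρ :=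
    (trc hpp hps hpB hpζ htr hRB hRp h2.κB h2.κp).trans
      (mul_le_mul h2.nκ h1.est (norm_nonneg _) (norm_nonneg _))
  have b2 : ‖R ((κ y - S) ζ)‖ ≤ ‖x‖ * ρ :=
    (ContinuousLinearMap.le_opNorm _ _).trans
      (mul_le_mul h1.nR h2.est (norm_nonneg _) (norm_nonneg _))
  have b3 : ∀ v, ‖E2 v‖ ≤ 2 * ‖v‖ := fun v => (ContinuousLinearMap.le_opNorm _ _).trans
    (mul_le_mul_of_nonneg_right hE2 (norm_nonneg _))
  calc _ ≤ ‖E2 ((κ x - R) (κ y ζ))‖ + ‖E2 (R ((κ y - S) ζ))‖ := norm_add_le _ _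
    _ ≤ 2 * (‖y‖ * ρ) + 2 * (‖x‖ * ρ) := add_le_add
        ((b3 _).trans (by linarith)) ((b3 _).trans (by linarith))
    _ = 2 * (‖x‖ * ρ + ‖y‖ * ρ) := by ring

theorem oneEst {j : K} (hj : j = E2 ζ) (hE2 : ‖E2‖ ≤ 2) {x : H →L[ℂ] H} {R : K →L[ℂ] K} {ρ : ℝ}
    (h1 : BoxR B κ p E2 ζ x R ρ) : ‖R j - κ x j‖ ≤ 2 * ρ := by
  have a1 : ∀ v, R (E2 v) = E2 (R v) := fun v => congrArg (fun T : K →L[ℂ] K => T v) h1.RE
  have a3 : ∀ v, κ x (E2 v) = E2 (κ x v) := fun v => congrArg (fun T : K →L[ℂ] K => T v) h1.κE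
  have hE : R j - κ x j = -(E2 ((κ x - R) ζ)) := by
    change R j - κ x j = -(E2 (κ x ζ - R ζ))
    rw [hj, a1, a3, map_sub]
    abel
  rw [hE, norm_neg]
  calc _ ≤ ‖E2‖ * ‖(κ x - R) ζ‖ := ContinuousLinearMap.le_opNorm _ _
    _ ≤ 2 * ρ := mul_le_mul hE2 h1.est (norm_nonneg _) (by norm_num)

theorem adjEst (hpp : p * p = p) (hps : star p = p) (hpB : p ∈ B) (hpζ : p ζ = ζ)
    (htr : ∀ Z : K →L[ℂ] K, Z ∈ B → p * Z * p = Z → ‖Z ζ‖ = ‖star Z ζ‖) {j : K}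
    (hj : j = E2 ζ) (hE2 : ‖E2‖ ≤ 2) {x : H →L[ℂ] H} {R : K →L[ℂ] K} {ρ : ℝ}
    (h1 : BoxR B κ p E2 ζ x R ρ) : ‖star R j - κ (star x) j‖ ≤ 2 * ρ := by
  have a1 : ∀ v, star R (E2 v) = E2 (star R v) :=
    fun v => congrArg (fun T : K →L[ℂ] K => T v) h1.REs
  have a3 : ∀ v, star (κ x) (E2 v) = E2 (star (κ x) v) :=
    fun v => congrArg (fun T : K →L[ℂ] K => T v) h1.κEs
  have hE : star R j - κ (star x) j = -(E2 (star (κ x - R) ζ)) := by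
    rw [star_sub, map_star]
    change star R j - star (κ x) j = -(E2 (star (κ x) ζ - star R ζ))
    rw [hj, a1, a3, map_sub]
    abel
  have hRB : κ x - R ∈ B := sub_mem h1.κB h1.RB
  have hRp : (κ x - R) * p = p * (κ x - R) := by rw [sub_mul, mul_sub, h1.κp, h1.Rp]
  rw [hE, norm_neg]
  calc _ ≤ ‖E2‖ * ‖star (κ x - R) ζ‖ := ContinuousLinearMap.le_opNorm _ _
    _ ≤ 2 * ρ := by
      rw [adj hpp hps hpB hpζ htr hRB hRp]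
      exact mul_le_mul hE2 h1.est (norm_nonneg _) (by norm_num)

end box

end

end Pool.Agent.W29.CB
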