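import Pool.Agent.W29.CB.F2

/-!
# Modular fixed points of the relative bicentralizer are approximated, together with products and
adjoints, by the relative commutant of the core (helper29)
-/

set_option autoImplicit false

open MeasureTheory Filter Topology Complex
open scoped InnerProductSpace ENNReal

namespace Pool.Agent.W29.CB

open Pool.Agent.W662.CB Pool.Agent.W29.CB.F0 Pool.Agent.W29.CB.D1
open Pool.Agent.W428.CB.F0 (norm_proj_le kap_le)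

noncomputable section

def S_F1n : Prop := ∀ (H K : Type) [NormedAddCommGroup H] [InnerProductSpace ℂ H] [CompleteSpace H]
  [NormedAddCommGroup K] [InnerProductSpace ℂ K] [CompleteSpace K]
  (M N : VonNeumannAlgebra H) (ξ : H) (U : ℝ → H →L[ℂ] H), Std M N ξ U →
  ∀ (κ : (H →L[ℂ] H) →⋆ₐ[ℂ] (K →L[ℂ] K)) (V : ℝ → K →L[ℂ] K)
  (A B : VonNeumannAlgebra K), (∀ x : K →L[ℂ] K, x ∈ A → x ∈ B) →
  (∀ Z : K →L[ℂ] K, Z ∈ B → Aff M κ V Z) → (∀ Z : K →L[ℂ] K, Z ∈ A → Aff N κ V Z) →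
  (∀ x : H →L[ℂ] H, x ∈ M → (∀ t : ℝ, sgm U t x = x) → κ x ∈ B) →
  (∀ Z : K →L[ℂ] K, Z ∈ A → (∀ S : K →L[ℂ] K, S ∈ A → S * Z = Z * S) → ∃ c : ℂ, Z = c • 1) →
  (∀ t : ℝ, V t * κ (U (-t)) ∈ A) →
  ∀ x : H →L[ℂ] H, x ∈ relBicentralizer N M ξ → (∀ t : ℝ, sgm U t x = x) →
  ∀ ρ : ℝ, 0 < ρ → ∃ δ : ℝ, 0 < δ ∧
  ∀ (J : H →L[ℂ] K) (E : ℂ → K →L[ℂ] K) (T δ' : ℝ), δ' ≤ δ → BoxP U κ V J E T δ' → E 0 ∈ A →
  ∃ R : K →L[ℂ] K, R ∈ B ∧ (∀ S : K →L[ℂ] K, S ∈ A → S * R = R * S) ∧ ‖R‖ ≤ ‖x‖ ∧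
    ‖(κ x - R) (E (-I / 2) (J ξ))‖ ≤ ρ

theorem f1n (hf0 : S_F0n) (h7 : S_B7) (h8 : S_B8) (h9 : S_B9) (hA7 : S_A7) (hc7 : S_C7) :
    S_F1n := by
  intro H K _ _ _ _ _ _ M N ξ U hStd κ V A B hAB hB hA hκ hfac hVA x hx hfix ρ hρ
  have hxM : x ∈ M := hx.1
  obtain ⟨s, hs0, hs1, hsρ⟩ : ∃ s : ℝ, 0 < s ∧ s ≤ 1 ∧ 16 * s ≤ ρ := by
    refine ⟨min 1 (ρ / 16), lt_min one_pos (by positivity), min_le_left _ _, ?_⟩
    have := min_le_right (1 : ℝ) (ρ / 16)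
    linarith
  have hs2 : 0 < s ^ 2 := by positivity
  -- `L`
  obtain ⟨L, hL0, hL⟩ : ∃ L : ℝ, 0 < L ∧ 8 * ‖x‖ ^ 2 / L ^ 2 ≤ s ^ 2 := by
    refine ⟨(3 * ‖x‖ + 1) / s, by positivity, ?_⟩
    rw [div_le_iff₀ (by positivity), div_pow]
    have h1 : s ^ 2 * ((3 * ‖x‖ + 1) ^ 2 / s ^ 2) = (3 * ‖x‖ + 1) ^ 2 := by
      field_simp
    rw [h1]
    nlinarith [norm_nonneg x, sq_nonneg ‖x‖]
  obtain ⟨A0, hA0, hA1⟩ := hA7 H M N ξ hStd.unit hStd.le x hx L (s ^ 2) hL0 hs2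
  -- `δ`
  obtain ⟨δ, hδ0, hδ1, hδA, hδx⟩ : ∃ δ : ℝ, 0 < δ ∧ δ ≤ 1 ∧ 20 * A0 * (3 * δ) ^ 2 ≤ s ^ 2 ∧
      ‖x‖ * δ ≤ s ^ 2 := by
    have hpos : 0 < 180 * A0 + ‖x‖ + 1 := by positivity
    refine ⟨min 1 (s ^ 2 / (180 * A0 + ‖x‖ + 1)), lt_min one_pos (by positivity),
      min_le_left _ _, ?_, ?_⟩
    · have h1 : min 1 (s ^ 2 / (180 * A0 + ‖x‖ + 1)) ≤ 1 := min_le_left _ _
      have h2 : min 1 (s ^ 2 / (180 * A0 + ‖x‖ + 1)) ≤ s ^ 2 / (180 * A0 + ‖x‖ + 1) :=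
        min_le_right _ _
      have h0 : 0 < min 1 (s ^ 2 / (180 * A0 + ‖x‖ + 1)) := lt_min one_pos (by positivity)
      rw [le_div_iff₀ hpos] at h2
      generalize min 1 (s ^ 2 / (180 * A0 + ‖x‖ + 1)) = δ at h0 h1 h2 ⊢
      have h3 : δ ^ 2 ≤ δ := by nlinarith
      have h4 : 20 * A0 * (3 * δ) ^ 2 = (180 * A0) * δ ^ 2 := by ring
      rw [h4]
      calc (180 * A0) * δ ^ 2 ≤ (180 * A0) * δ := mul_le_mul_of_nonneg_left h3 (by positivity)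
        _ ≤ δ * (180 * A0 + ‖x‖ + 1) := by nlinarith [norm_nonneg x]
        _ ≤ s ^ 2 := h2
    · have h2 : min 1 (s ^ 2 / (180 * A0 + ‖x‖ + 1)) ≤ s ^ 2 / (180 * A0 + ‖x‖ + 1) :=
        min_le_right _ _
      have h0 : 0 < min 1 (s ^ 2 / (180 * A0 + ‖x‖ + 1)) := lt_min one_pos (by positivity)
      rw [le_div_iff₀ hpos] at h2
      generalize min 1 (s ^ 2 / (180 * A0 + ‖x‖ + 1)) = δ at h0 h2 ⊢
      nlinarith [norm_nonneg x]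
  refine ⟨δ, hδ0, fun J E T δ' hδ' hBox hE0 => ?_⟩
  have hδ'0 : 0 ≤ δ' := hBox.δ_nonneg
  -- the estimate for one `Y`
  have hY : ∀ Y : K →L[ℂ] K, Y ∈ A → E 0 * Y * E 0 = Y → ‖Y‖ ≤ 1 →
      ‖(Y * κ x - κ x * Y) (J ξ)‖ ≤ 2 * s := by
    intro Y hYA hYE hY1
    obtain ⟨hC1, hC2, hC3⟩ := h7 H K M N ξ U κ V J E T δ' hStd hBox Y (hA Y hYA) hYE hY1
    obtain ⟨C1, C2, hk1, hk2, hs1', hs2'⟩ :=
      h8 H K M N ξ U κ V J E T δ' hStd hBox Y (hA Y hYA) hYE hY1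
    have hsum : ∀ F : Finset ℤ,
        ∑ m ∈ F, ‖(cf J E T Y m * x - x * cf J E T Y m) ξ‖ ^ 2 ≤ (2 * s) ^ 2 := by
      intro F
      have h1 := hc7 H M N ξ U hStd T L (s ^ 2) A0 (3 * δ') x hxM hfix hL0 hs2.le hA0 hA1 F
        (cf J E T Y) C1 C2 hC1 (hC2 F) (hC3 F) hk1 hk2 (hs1' F) (hs2' F)
      have h2 : 20 * A0 * (3 * δ') ^ 2 ≤ 20 * A0 * (3 * δ) ^ 2 := by
        apply mul_le_mul_of_nonneg_left _ (by positivity)
        apply pow_le_pow_left₀ (by positivity)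
        linarith
      have h3 : (2 * s) ^ 2 = 2 * s ^ 2 + s ^ 2 + s ^ 2 := by ring
      rw [h3]
      linarith
    have h4 := h9 H K ξ U κ V J E T δ' hBox Y x ((2 * s) ^ 2) hYE hsum
    exact (sq_le_sq₀ (norm_nonneg _) (by positivity)).1 h4
  obtain ⟨R, hRB, hRA, hRn, hc⟩ := hf0 H K M N ξ U hStd κ V A B hAB hB hA hfac hVA J E T δ' hBox hE0 x
    (2 * s) hxM (hκ x hxM hfix) (by positivity) hY
  refine ⟨R, hRB, hRA, hRn, hc.trans ?_⟩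
  have h6 : ‖x‖ * δ' ≤ ‖x‖ * δ := mul_le_mul_of_nonneg_left hδ' (norm_nonneg _)
  have h7' : s ^ 2 ≤ s := by nlinarith
  have h8' : 2 * (2 * s + 2 * ‖x‖ * δ') ≤ 8 * s := by nlinarith
  linarith

theorem pF1n : S_F1n := f1n f0n pB7 pB8 pB9 pA7 pC7

def S_MAINn : Prop := ∀ (H : Type) [NormedAddCommGroup H] [InnerProductSpace ℂ H] [CompleteSpace H]
  (M N : VonNeumannAlgebra H) (ξ : H) (U : ℝ → H →L[ℂ] H) (E : (H →L[ℂ] H) → (H →L[ℂ] H)),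
  (∀ x : H →L[ℂ] H, x ∈ N → x ∈ M) → ‖ξ‖ = 1 → IsCyclic M ξ → IsSeparating M ξ →
  IsModular M ξ U → IsCondExp M N E → (∀ x : H →L[ℂ] H, x ∈ M → vst ξ (E x) = vst ξ x) →
  (∀ Z : LR H →L[ℂ] LR H, Z ∈ core N U → (∀ S : LR H →L[ℂ] LR H, S ∈ core N U → S * Z = Z * S) →
    ∃ c : ℂ, Z = c • 1) →
  ∀ (k : ℕ) (x : Fin k → H →L[ℂ] H), (∀ i, x i ∈ relBicentralizer N M ξ) →
  (∀ i, ∀ t : ℝ, sgm U t (x i) = x i) → ∀ ε : ℝ, 0 < ε →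
  ∃ (J : H →L[ℂ] LR H) (Y : Fin k → LR H →L[ℂ] LR H), (∀ v : H, ‖J v‖ = ‖v‖) ∧
    (∀ (y : H →L[ℂ] H) (v : H), (J (y v) : ℝ → H) =ᵐ[volume] fun s => y (J v s)) ∧
    (∀ i, Y i ∈ core M U ∧ ∀ S : LR H →L[ℂ] LR H, S ∈ core N U → S * Y i = Y i * S) ∧
    (∀ i, ‖Y i‖ ≤ ‖x i‖) ∧ (∀ i, ‖Y i (J ξ) - J (x i ξ)‖ ≤ ε) ∧
    (∀ i j, ‖(Y i * Y j) (J ξ) - J ((x i * x j) ξ)‖ ≤ ε) ∧
    ∀ i, ‖star (Y i) (J ξ) - J (star (x i) ξ)‖ ≤ ε

theorem mainn : S_MAINn := by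
  intro H _ _ _ M N ξ U E hNM hξ hcyc hsep hU hE hφ hfac k x hx hxU ε hε
  have hinv := pA8 H M N ξ U E hNM hcyc hsep hU hE hφ
  have hstd : Std M N ξ U := ⟨hNM, hξ, hsep, hU, hinv⟩
  obtain ⟨κ, hκ⟩ := pE1 H
  obtain ⟨R, hR, hR0, hRadd, hRstar, hRc⟩ := pE3 H
  obtain ⟨Φ, hΦc, hΦs⟩ := pE9 H
  obtain ⟨e, he, hbox⟩ := pE7 H M ξ U hU κ hκ
  have hle : ∀ Z : LR H →L[ℂ] LR H, Z ∈ core N U → Z ∈ core M U := by
    have hsub : coreGen N U ⊆ coreGen M U := by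
      rintro T (⟨y, hy, hT⟩ | ⟨t, hT⟩)
      · exact Or.inl ⟨y, hNM y hy, hT⟩
      · exact Or.inr ⟨t, hT⟩
    intro Z hZ
    have h1 : Z ∈ StarSubalgebra.centralizer ℂ
        ((StarSubalgebra.centralizer ℂ (coreGen N U) : Set (LR H →L[ℂ] LR H))) := hZ
    have h2 : Z ∈ StarSubalgebra.centralizer ℂ
        ((StarSubalgebra.centralizer ℂ (coreGen M U) : Set (LR H →L[ℂ] LR H))) := by
      rw [StarSubalgebra.mem_centralizer_iff] at h1 ⊢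
      intro g hg
      refine h1 g ?_
      have hg' : g ∈ StarSubalgebra.centralizer ℂ (coreGen M U) := hg
      show g ∈ StarSubalgebra.centralizer ℂ (coreGen N U)
      rw [StarSubalgebra.mem_centralizer_iff] at hg' ⊢
      exact fun y hy => hg' y (hsub hy)
    exact h2
  obtain ⟨C, hC0, hC⟩ : ∃ C : ℝ, 0 ≤ C ∧ ∀ i, ‖x i‖ ≤ C :=
    ⟨∑ i, ‖x i‖, Finset.sum_nonneg fun i _ => norm_nonneg _,
      fun i => Finset.single_le_sum (f := fun i => ‖x i‖) (fun i _ => norm_nonneg _)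
        (Finset.mem_univ i)⟩
  obtain ⟨ρ, hρ0, hρ1, hρ2⟩ : ∃ ρ : ℝ, 0 < ρ ∧ 2 * ρ ≤ ε ∧ 4 * (C * ρ) ≤ ε := by
    refine ⟨ε / (4 * (C + 1)), by positivity, ?_, ?_⟩
    · rw [mul_div_assoc', div_le_iff₀ (by positivity)]
      nlinarith
    · rw [mul_div_assoc', mul_div_assoc', div_le_iff₀ (by positivity)]
      nlinarith
  have hUU : ∀ t : ℝ, U t * U (-t) = 1 := fun t => by rw [← hU.add, add_neg_cancel, hU.zero]
  have key : ∀ i, ∃ δ : ℝ, 0 < δ ∧ ∀ (J : H →L[ℂ] LR H) (E : ℂ → LR H →L[ℂ] LR H) (T δ' : ℝ),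
      δ' ≤ δ → BoxP U κ (fun t => R (-t) * κ (U t)) J E T δ' → E 0 ∈ core N U →
      ∃ Y : LR H →L[ℂ] LR H, Y ∈ core M U ∧ (∀ S : LR H →L[ℂ] LR H, S ∈ core N U → S * Y = Y * S) ∧
        ‖Y‖ ≤ ‖x i‖ ∧ ‖(κ (x i) - Y) (E (-I / 2) (J ξ))‖ ≤ ρ := by
    intro i
    refine pF1n H (LR H) M N ξ U hstd κ (fun t => R (-t) * κ (U t)) (core N U) (core M U) hle
      ?_ ?_ ?_ hfac ?_ (x i) (hx i) (hxU i) ρ hρ0
    · intro Z hZ
      exact pE11 H M M ξ U hU (fun y hy => hy) hU.mem κ hκ R hR hR0 hRadd hRstar Z hZ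
    · intro Z hZ
      exact pE11 H M N ξ U hU hNM hinv κ hκ R hR hR0 hRadd hRstar Z hZ
    · intro y hy hyU
      refine gen_mem _ _ (Or.inl ⟨y, hy, fun f => ?_⟩)
      simp only [hyU]
      exact hκ y f
    · intro t
      show R (-t) * κ (U t) * κ (U (-t)) ∈ core N U
      rw [mul_assoc, ← map_mul, hUU, map_one, mul_one]
      exact gen_mem _ _ (Or.inr ⟨-t, hR (-t)⟩)
  choose δ hδ0 hδ using key
  obtain ⟨δ0, hδ00, hδ0i⟩ : ∃ δ0 : ℝ, 0 < δ0 ∧ ∀ i, δ0 ≤ δ i := by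
    rcases Nat.eq_zero_or_pos k with hk | hk
    · subst hk
      exact ⟨1, one_pos, fun i => i.elim0⟩
    · haveI : Nonempty (Fin k) := ⟨⟨0, hk⟩⟩
      obtain ⟨i0, -, hi0⟩ := Finset.exists_min_image (Finset.univ : Finset (Fin k)) δ
        Finset.univ_nonempty
      exact ⟨δ i0, hδ0 i0, fun i => hi0 i (Finset.mem_univ i)⟩
  obtain ⟨J, E0, T, δ', W, hδ', hB, hW, hE0⟩ := hbox δ0 hδ00
  obtain ⟨J', E', hE', hB'⟩ := pE8 H (LR H) (LR H) U κ (fun t => e t * κ (U t)) J E0 T δ' hB κ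
    (fun t => R (-t) * κ (U t)) Φ (fun y f => hΦc y (κ y) (hκ y) f) (by
      intro t f
      have h5 := hΦs (-t) (R (-t)) (e t) (hR (-t)) (by
        have h6 := he t
        simpa using h6) (κ (U t) f)
      show Φ (R (-t) (κ (U t) f)) = e t (κ (U t) (Φ f))
      rw [h5, hΦc (U t) (κ (U t)) (hκ (U t)) f])
  have hEN : E' 0 ∈ core N U := pFin0 H N U R hR Φ hΦs W (E0 0) (E' 0) hW hE0 (hE' 0)
  have hJn : ∀ v : H, ‖J' v‖ = ‖v‖ :=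
    (pB1 H (LR H) M ξ U κ (fun t => R (-t) * κ (U t)) J' E' T δ' hU hB').2.2.2.2.1
  choose Y hYM hYN hYn hYJ using fun i => hδ i J' E' T δ' (hδ'.trans (hδ0i i)) hB' hEN
  set p : LR H →L[ℂ] LR H := E' 0 with hp
  have hpp : p * p = p := by rw [hp, ← hB'.E_add, add_zero]
  have hps : star p = p := by rw [hp, hB'.E_star, map_zero, neg_zero]
  set ζ : LR H := E' (-I / 2) (J' ξ) with hζ
  have hpζ : p ζ = ζ := by
    have := hB'.E_add 0 (-I / 2)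
    rw [zero_add] at this
    rw [hζ]
    conv_rhs => rw [this]
    rfl
  have hpB : p ∈ core M U := hle p hEN
  have hBM : ∀ Z : LR H →L[ℂ] LR H, Z ∈ core M U → Aff M κ (fun t => R (-t) * κ (U t)) Z := fun Z hZ =>
    pE11 H M M ξ U hU (fun y hy => hy) hU.mem κ hκ R hR hR0 hRadd hRstar Z hZ
  have htr : ∀ Z : LR H →L[ℂ] LR H, Z ∈ core M U → p * Z * p = Z → ‖Z ζ‖ = ‖star Z ζ‖ :=
    fun Z hZ hZp => pB5 H (LR H) M ξ U κ (fun t => R (-t) * κ (U t)) J' E' T δ' hU hB' Z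
      (hBM Z hZ) hZp
  have hj : J' ξ = E' (I / 2) ζ := by
    have := hB'.E_add (I / 2) (-I / 2)
    have h0 : I / 2 + -I / 2 = (0 : ℂ) := by ring
    rw [h0] at this
    rw [hζ]
    change J' ξ = (E' (I / 2) * E' (-I / 2)) (J' ξ)
    rw [← this, hB'.E_J]
  have hE2 : ‖E' (I / 2)‖ ≤ 2 := by
    have h7 : ‖E' (I / 2)‖ ≤ ‖E' (I / 2) - E' 0‖ + ‖E' 0‖ := by
      calc ‖E' (I / 2)‖ = ‖(E' (I / 2) - E' 0) + E' 0‖ := by rw [sub_add_cancel]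
        _ ≤ _ := norm_add_le _ _
    have h8 := hB'.nE4
    have h9 := hB'.δ_le
    have h10 : ‖E' 0‖ ≤ 1 := norm_proj_le p hpp hps
    linarith
  have hVA : ∀ t : ℝ, R (-t) * κ (U t) * κ (U (-t)) ∈ core N U := by
    intro t
    rw [mul_assoc, ← map_mul, hUU, map_one, mul_one]
    exact gen_mem _ _ (Or.inr ⟨-t, hR (-t)⟩)
  have hEtA : ∀ t : ℝ, E' t ∈ core N U := by
    intro t
    rw [Et hU hB' t]
    exact mul_mem (hVA t) hEN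
  have hcE : ∀ X : LR H →L[ℂ] LR H, (∀ S : LR H →L[ℂ] LR H, S ∈ core N U → S * X = X * S) →
      ∀ z : ℂ, X * E' z = E' z * X := by
    intro X hX z
    refine sub_eq_zero.1 (ident (fun z => X * E' z - E' z * X) ?_ ?_ z)
    · exact (hB'.E_diff.const_mul X).sub (hB'.E_diff.mul_const X)
    · intro t
      show X * E' t - E' t * X = 0
      rw [hX _ (hEtA t), sub_self]
  have hstarY : ∀ i, ∀ S : LR H →L[ℂ] LR H, S ∈ core N U → S * star (Y i) = star (Y i) * S := by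
    intro i S hS
    have h := congrArg star (hYN i (star S) (star_mem hS))
    rw [star_mul, star_mul, star_star] at h
    exact h.symm
  have hbr : ∀ i, BoxR (core M U) κ p (E' (I / 2)) ζ (x i) (Y i) ρ := by
    intro i
    refine ⟨?_, hYM i, hcE _ (hYN i) 0, hB'.κ_E _ _, hcE _ (hYN i) _, hB'.κ_E _ _,
      hcE _ (hstarY i) _, ?_, hYn i, kap_le κ (x i), hYJ i⟩
    · refine gen_mem _ _ (Or.inl ⟨x i, (hx i).1, fun f => ?_⟩)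
      simp only [hxU i]
      exact hκ (x i) f
    · rw [← map_star]
      exact hB'.κ_E _ _
  refine ⟨J', Y, hJn, ?_, fun i => ⟨hYM i, hYN i⟩, hYn, ?_, ?_, ?_⟩
  · intro y v
    rw [← hB'.κ_J]
    exact hκ y (J' v)
  · intro i
    rw [← hB'.κ_J]
    exact (oneEst hj hE2 (hbr i)).trans hρ1
  · intro i j
    have h1 : J' ((x i * x j) ξ) = (κ (x i) * κ (x j)) (J' ξ) := by
      rw [← map_mul, hB'.κ_J]
    rw [h1]
    refine (prodEst hpp hps hpB hpζ htr hj hE2 (hbr i) (hbr j)).trans ?_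
    have h2 : ‖x i‖ * ρ ≤ C * ρ := mul_le_mul_of_nonneg_right (hC i) hρ0.le
    have h3 : ‖x j‖ * ρ ≤ C * ρ := mul_le_mul_of_nonneg_right (hC j) hρ0.le
    linarith
  · intro i
    rw [← hB'.κ_J]
    exact (adjEst hpp hps hpB hpζ htr hj hE2 (hbr i)).trans hρ1

end

end Pool.Agent.W29.CB
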