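import Pool.Agent.W29.CB.Main

/-!
# Linear independence passes to the relative commutant of the core (helper29)
-/

set_option autoImplicit false

open MeasureTheory Filter Topology Complex
open scoped InnerProductSpace ENNReal

namespace Pool.Agent.W29.CB

open Pool.Agent.W662.CB

noncomputable section

/-- vectors close to linearly independent vectors are linearly independent -/
theorem indep_of_close {X : Type} [NormedAddCommGroup X] [NormedSpace ℂ X] {k : ℕ} (v : Fin k → X)
    (hv : LinearIndependent ℂ v) : ∃ ε : ℝ, 0 < ε ∧ ∀ w : Fin k → X, (∀ i, ‖w i - v i‖ ≤ ε) →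
      LinearIndependent ℂ w := by
  obtain ⟨f, hf⟩ : ∃ f : (Fin k → ℂ) →ₗ[ℂ] X, ∀ c, f c = ∑ i, c i • v i :=
    ⟨Fintype.linearCombination ℂ v, fun c => Fintype.linearCombination_apply ℂ v c⟩
  have hker : LinearMap.ker f = ⊥ := by
    rw [LinearMap.ker_eq_bot']
    intro c hc
    rw [hf] at hc
    exact funext (Fintype.linearIndependent_iff.1 hv c hc)
  obtain ⟨K, hK0, hK⟩ := f.exists_antilipschitzWith hker
  refine ⟨1 / ((K : ℝ) * (k + 1)), by positivity, fun w hw => ?_⟩
  rw [Fintype.linearIndependent_iff]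
  intro c hc
  have h1 : ‖c‖ ≤ K * ‖f c‖ := by
    have h2 := hK.le_mul_dist c 0
    rw [dist_zero_right, map_zero, dist_zero_right] at h2
    exact h2
  have h3 : ‖f c‖ ≤ k * ‖c‖ * (1 / ((K : ℝ) * (k + 1))) := by
    have h4 : f c = ∑ i, c i • (v i - w i) := by
      rw [hf]
      simp only [smul_sub]
      rw [Finset.sum_sub_distrib, hc, sub_zero]
    rw [h4]
    refine (norm_sum_le _ _).trans ?_
    have h5 : ∀ i ∈ (Finset.univ : Finset (Fin k)), ‖c i • (v i - w i)‖ ≤
        ‖c‖ * (1 / ((K : ℝ) * (k + 1))) := by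
      intro i _
      rw [norm_smul, norm_sub_rev]
      exact mul_le_mul (norm_le_pi_norm c i) (hw i) (norm_nonneg _) (norm_nonneg _)
    refine (Finset.sum_le_card_nsmul _ _ _ h5).trans ?_
    rw [Finset.card_univ, Fintype.card_fin, nsmul_eq_mul]
    exact le_of_eq (by ring)
  have h6 : ‖c‖ ≤ ‖c‖ * (k / (k + 1)) := by
    refine h1.trans ((mul_le_mul_of_nonneg_left h3 K.coe_nonneg).trans (le_of_eq ?_))
    have hK' : (K : ℝ) ≠ 0 := by exact_mod_cast hK0.ne'
    have hk' : (k : ℝ) + 1 ≠ 0 := by positivity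
    field_simp
  have h7 : (k : ℝ) / (k + 1) < 1 := by
    rw [div_lt_one (by positivity)]
    linarith
  have h8 : ‖c‖ = 0 := by
    have := norm_nonneg c
    nlinarith
  intro i
  have h9 := congrFun (norm_eq_zero.1 h8) i
  exact h9

theorem indep {H : Type} [NormedAddCommGroup H] [InnerProductSpace ℂ H] [CompleteSpace H]
    {M : VonNeumannAlgebra H} {ξ : H} (hsep : IsSeparating M ξ) {k : ℕ} (x : Fin k → H →L[ℂ] H)
    (hx : ∀ i, x i ∈ M) (hlin : LinearIndependent ℂ x) : ∃ ε : ℝ, 0 < ε ∧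
    ∀ (J : H →L[ℂ] LR H) (Y : Fin k → LR H →L[ℂ] LR H), (∀ v : H, ‖J v‖ = ‖v‖) →
      (∀ i, ‖Y i (J ξ) - J (x i ξ)‖ ≤ ε) → LinearIndependent ℂ Y := by
  have h1 : LinearIndependent ℂ (fun i => x i ξ) := by
    rw [Fintype.linearIndependent_iff]
    intro c hc
    have h2 : ∑ i, c i • x i ∈ M :=
      sum_mem fun i _ => M.toStarSubalgebra.toSubalgebra.smul_mem (hx i) (c i)
    have h3 : (∑ i, c i • x i) ξ = 0 := by
      rw [ContinuousLinearMap.sum_apply]
      exact hc
    exact Fintype.linearIndependent_iff.1 hlin c (hsep _ h2 h3)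
  obtain ⟨ε, hε, h⟩ := indep_of_close _ h1
  refine ⟨ε, hε, fun J Y hJ hY => ?_⟩
  -- transport to the range of `J`: vectors `J (x i ξ)` are linearly independent with the same gap
  rw [Fintype.linearIndependent_iff]
  intro c hc
  -- adjoint of `J` maps `Y i (J ξ)` close to `x i ξ`
  have hJJ : ∀ v : H, ContinuousLinearMap.adjoint J (J v) = v := by
    intro v
    refine ext_inner_left ℂ fun w => ?_
    rw [ContinuousLinearMap.adjoint_inner_right]
    have h4 : ∀ a b : H, ⟪J a, J b⟫_ℂ = ⟪a, b⟫_ℂ := by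
      intro a b
      exact (LinearMap.norm_map_iff_inner_map_map (J : H →ₗ[ℂ] LR H)).1 hJ a b
    exact h4 w v
  have hJa : ∀ u : LR H, ‖ContinuousLinearMap.adjoint J u‖ ≤ ‖u‖ := by
    intro u
    have h5 : ‖ContinuousLinearMap.adjoint J‖ ≤ 1 := by
      rw [LinearIsometryEquiv.norm_map]
      exact ContinuousLinearMap.opNorm_le_bound _ zero_le_one fun v => by rw [hJ, one_mul]
    calc ‖ContinuousLinearMap.adjoint J u‖ ≤ ‖ContinuousLinearMap.adjoint J‖ * ‖u‖ :=
          ContinuousLinearMap.le_opNorm _ _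
      _ ≤ 1 * ‖u‖ := by gcongr
      _ = ‖u‖ := one_mul _
  have h6 := h (fun i => ContinuousLinearMap.adjoint J (Y i (J ξ))) (fun i => by
    have h7 : ContinuousLinearMap.adjoint J (Y i (J ξ)) - x i ξ =
        ContinuousLinearMap.adjoint J (Y i (J ξ) - J (x i ξ)) := by
      rw [map_sub, hJJ]
    rw [h7]
    exact (hJa _).trans (hY i))
  refine Fintype.linearIndependent_iff.1 h6 c ?_
  have h8 := congrArg (fun T : LR H →L[ℂ] LR H => ContinuousLinearMap.adjoint J (T (J ξ))) hc
  simp only [ContinuousLinearMap.sum_apply, map_sum, map_zero] at h8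
  rw [← show ContinuousLinearMap.adjoint J ((0 : LR H →L[ℂ] LR H) (J ξ)) = 0 from map_zero _, ← h8]
  refine Finset.sum_congr rfl fun i _ => ?_
  rw [_root_.smul_apply, map_smul]

end

end Pool.Agent.W29.CB
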