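import Pool.Agent.W662.CB.All
import Pool.Agent.W662.CB.Fdefs
import Pool.Agent.W29.CB.F1

/-!
# Modular fixed points of the relative bicentralizer and the relative commutant of the core
(adapted from W662.CB.Fin, helper29)
-/

set_option autoImplicit false

open MeasureTheory Filter Topology Complex
open scoped InnerProductSpace ENNReal

namespace Pool.Agent.W29.CB

open Pool.Agent.W662.CB Pool.Agent.W29.CB.F0

noncomputable section

theorem pF0f : S_F0f := f0f pB1 pB2 pB5 pB6 pD2 pD3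

theorem pF1f : S_F1f := f1f pF0f pB7 pB8 pB9 pA7 pC7

/-- generators belong to the generated algebra -/
theorem gen_mem {K : Type} [NormedAddCommGroup K] [InnerProductSpace ℂ K] [CompleteSpace K]
    (S : Set (K →L[ℂ] K)) (T : K →L[ℂ] K) (hT : T ∈ S) : T ∈ vnGen S := by
  have h2 : T ∈ StarSubalgebra.centralizer ℂ
      ((StarSubalgebra.centralizer ℂ S : Set (K →L[ℂ] K))) := by
    rw [StarSubalgebra.mem_centralizer_iff]
    intro g hg
    have hg' : g ∈ StarSubalgebra.centralizer ℂ S := hg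
    rw [StarSubalgebra.mem_centralizer_iff] at hg'
    have h3 := hg' T hT
    refine ⟨h3.1.symm, ?_⟩
    have h4 := congrArg star h3.2
    simp only [star_mul, star_star] at h4
    exact h4
  exact h2

def S_MAINf : Prop := ∀ (H : Type) [NormedAddCommGroup H] [InnerProductSpace ℂ H] [CompleteSpace H]
  (M N : VonNeumannAlgebra H) (ξ : H) (U : ℝ → H →L[ℂ] H) (E : (H →L[ℂ] H) → (H →L[ℂ] H)),
  (∀ x : H →L[ℂ] H, x ∈ N → x ∈ M) → ‖ξ‖ = 1 → IsCyclic M ξ → IsSeparating M ξ →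
  IsModular M ξ U → IsCondExp M N E → (∀ x : H →L[ℂ] H, x ∈ M → vst ξ (E x) = vst ξ x) →
  (∀ Z : LR H →L[ℂ] LR H, Z ∈ core N U → (∀ S : LR H →L[ℂ] LR H, S ∈ core N U → S * Z = Z * S) →
    ∃ c : ℂ, Z = c • 1) →
  ∀ (k : ℕ) (x : Fin k → H →L[ℂ] H), (∀ i, x i ∈ relBicentralizer N M ξ) →
  (∀ i, ∀ t : ℝ, sgm U t (x i) = x i) → ∀ ε : ℝ, 0 < ε →
  ∃ (J : H →L[ℂ] LR H) (Y : Fin k → LR H →L[ℂ] LR H), (∀ v : H, ‖J v‖ = ‖v‖) ∧
    (∀ (y : H →L[ℂ] H) (v : H), (J (y v) : ℝ → H) =ᵐ[volume] fun s => y (J v s)) ∧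
    (∀ i, Y i ∈ core M U ∧ ∀ S : LR H →L[ℂ] LR H, S ∈ core N U → S * Y i = Y i * S) ∧
    ∀ i, ‖Y i (J ξ) - J (x i ξ)‖ ≤ ε

theorem mainf : S_MAINf := by
  intro H _ _ _ M N ξ U E hNM hξ hcyc hsep hU hE hφ hfac k x hx hxU ε hε
  have hinv := pA8 H M N ξ U E hNM hcyc hsep hU hE hφ
  have hstd : Std M N ξ U := ⟨hNM, hξ, hsep, hU, hinv⟩
  obtain ⟨κ, hκ⟩ := pE1 H
  obtain ⟨R, hR, hR0, hRadd, hRstar, hRc⟩ := pE3 H
  obtain ⟨Φ, hΦc, hΦs⟩ := pE9 H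
  obtain ⟨e, he, hbox⟩ := pE7 H M ξ U hU κ hκ
  have hle : ∀ Z : LR H →L[ℂ] LR H, Z ∈ core N U → Z ∈ core M U := by
    have hsub : coreGen N U ⊆ coreGen M U := by
      rintro T (⟨y, hy, hT⟩ | ⟨t, hT⟩)
      · exact Or.inl ⟨y, hNM y hy, hT⟩
      · exact Or.inr ⟨t, hT⟩
    intro Z hZ
    have h1 : Z ∈ StarSubalgebra.centralizer ℂ
        ((StarSubalgebra.centralizer ℂ (coreGen N U) : Set (LR H →L[ℂ] LR H))) := hZ
    have h2 : Z ∈ StarSubalgebra.centralizer ℂ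
        ((StarSubalgebra.centralizer ℂ (coreGen M U) : Set (LR H →L[ℂ] LR H))) := by
      rw [StarSubalgebra.mem_centralizer_iff] at h1 ⊢
      intro g hg
      refine h1 g ?_
      have hg' : g ∈ StarSubalgebra.centralizer ℂ (coreGen M U) := hg
      show g ∈ StarSubalgebra.centralizer ℂ (coreGen N U)
      rw [StarSubalgebra.mem_centralizer_iff] at hg' ⊢
      exact fun y hy => hg' y (hsub hy)
    exact h2
  have hUU : ∀ t : ℝ, U t * U (-t) = 1 := fun t => by rw [← hU.add, add_neg_cancel, hU.zero]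
  have key : ∀ i, ∃ δ : ℝ, 0 < δ ∧ ∀ (J : H →L[ℂ] LR H) (E : ℂ → LR H →L[ℂ] LR H) (T δ' : ℝ),
      δ' ≤ δ → BoxP U κ (fun t => R (-t) * κ (U t)) J E T δ' → E 0 ∈ core N U →
      ∃ Y : LR H →L[ℂ] LR H, Y ∈ core M U ∧ (∀ S : LR H →L[ℂ] LR H, S ∈ core N U → S * Y = Y * S) ∧
        ‖κ (x i) (J ξ) - Y (J ξ)‖ ≤ ε := by
    intro i
    refine pF1f H (LR H) M N ξ U hstd κ (fun t => R (-t) * κ (U t)) (core N U) (core M U) hle
      ?_ ?_ ?_ hfac ?_ (x i) (hx i) (hxU i) ε hε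
    · intro Z hZ
      exact pE11 H M M ξ U hU (fun y hy => hy) hU.mem κ hκ R hR hR0 hRadd hRstar Z hZ
    · intro Z hZ
      exact pE11 H M N ξ U hU hNM hinv κ hκ R hR hR0 hRadd hRstar Z hZ
    · intro y hy hyU
      refine gen_mem _ _ (Or.inl ⟨y, hy, fun f => ?_⟩)
      simp only [hyU]
      exact hκ y f
    · intro t
      show R (-t) * κ (U t) * κ (U (-t)) ∈ core N U
      rw [mul_assoc, ← map_mul, hUU, map_one, mul_one]
      exact gen_mem _ _ (Or.inr ⟨-t, hR (-t)⟩)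
  choose δ hδ0 hδ using key
  obtain ⟨δ0, hδ00, hδ0i⟩ : ∃ δ0 : ℝ, 0 < δ0 ∧ ∀ i, δ0 ≤ δ i := by
    rcases Nat.eq_zero_or_pos k with hk | hk
    · subst hk
      exact ⟨1, one_pos, fun i => i.elim0⟩
    · haveI : Nonempty (Fin k) := ⟨⟨0, hk⟩⟩
      obtain ⟨i0, -, hi0⟩ := Finset.exists_min_image (Finset.univ : Finset (Fin k)) δ
        Finset.univ_nonempty
      exact ⟨δ i0, hδ0 i0, fun i => hi0 i (Finset.mem_univ i)⟩
  obtain ⟨J, E0, T, δ', W, hδ', hB, hW, hE0⟩ := hbox δ0 hδ00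
  obtain ⟨J', E', hE', hB'⟩ := pE8 H (LR H) (LR H) U κ (fun t => e t * κ (U t)) J E0 T δ' hB κ
    (fun t => R (-t) * κ (U t)) Φ (fun y f => hΦc y (κ y) (hκ y) f) (by
      intro t f
      have h5 := hΦs (-t) (R (-t)) (e t) (hR (-t)) (by
        have h6 := he t
        simpa using h6) (κ (U t) f)
      show Φ (R (-t) (κ (U t) f)) = e t (κ (U t) (Φ f))
      rw [h5, hΦc (U t) (κ (U t)) (hκ (U t)) f])
  have hEN : E' 0 ∈ core N U := pFin0 H N U R hR Φ hΦs W (E0 0) (E' 0) hW hE0 (hE' 0)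
  have hJn : ∀ v : H, ‖J' v‖ = ‖v‖ :=
    (pB1 H (LR H) M ξ U κ (fun t => R (-t) * κ (U t)) J' E' T δ' hU hB').2.2.2.2.1
  choose Y hYM hYN hYJ using fun i => hδ i J' E' T δ' (hδ'.trans (hδ0i i)) hB' hEN
  refine ⟨J', Y, hJn, ?_, fun i => ⟨hYM i, hYN i⟩, ?_⟩
  · intro y v
    rw [← hB'.κ_J]
    exact hκ y (J' v)
  · intro i
    rw [← hB'.κ_J, norm_sub_rev]
    exact hYJ i

end

end Pool.Agent.W29.CB
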