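import Pool.Agent.W29.CB.F3

set_option autoImplicit false

open MeasureTheory
open scoped InnerProductSpace
open Pool.Agent.W662.CB

namespace Pool.Agent.W29.CB

/-- The relative commutant `c(N)' ∩ c(M)` of the continuous cores, on `L²(ℝ; H)`. -/
def crc0 {H : Type} [NormedAddCommGroup H] [InnerProductSpace ℂ H] [CompleteSpace H]
    (N M : VonNeumannAlgebra H) (U : ℝ → H →L[ℂ] H) : Set (LR H →L[ℂ] LR H) :=
  {T | T ∈ core M U ∧ ∀ S : LR H →L[ℂ] LR H, S ∈ core N U → S * T = T * S}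

/-- The part `B(N ⊂ M, φ)^{σ^φ}` of the relative bicentralizer fixed by the modular group. -/
def fixedBic {H : Type} [NormedAddCommGroup H] [InnerProductSpace ℂ H] [CompleteSpace H]
    (N M : VonNeumannAlgebra H) (ξ : H) (U : ℝ → H →L[ℂ] H) : Set (H →L[ℂ] H) :=
  {x | x ∈ relBicentralizer N M ξ ∧ ∀ t : ℝ, sgm U t x = x}

/-- **The modular fixed part of the relative bicentralizer and the relative commutant of the
cores.** Let `N ⊂ M` be von Neumann algebras on `H`, `ξ` a unit vector cyclic and separating for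
`M`, `φ` its vector state, `U_t = Δ^{it}` its modular unitaries, `E` a conditional expectation of
`M` onto `N` with `φ ∘ E = φ`, and let the core `c(N)` be a factor.
(1) Finitely many elements `x_i` of `B(N ⊂ M, φ)^{σ^φ}` are approximated, together with their
products and adjoints, by elements `Y_i` of `c(N)' ∩ c(M)` with `‖Y_i‖ ≤ ‖x_i‖`, in the norm of the
vector `J ξ = f ⊗ ξ`, `f` a unit vector of `L²(ℝ)`.
(2) If there are `k` linearly independent elements in `B(N ⊂ M, φ)^{σ^φ}` then there are `k`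
linearly independent elements in `c(N)' ∩ c(M)`.
(3) If `c(N)' ∩ c(M)` is abelian then so is `B(N ⊂ M, φ)^{σ^φ}`. -/
theorem res (H : Type) [NormedAddCommGroup H] [InnerProductSpace ℂ H] [CompleteSpace H]
    (M N : VonNeumannAlgebra H) (ξ : H) (U : ℝ → H →L[ℂ] H) (E : (H →L[ℂ] H) → (H →L[ℂ] H))
    (hNM : ∀ x : H →L[ℂ] H, x ∈ N → x ∈ M) (hξ : ‖ξ‖ = 1)
    (hcyc : IsCyclic M ξ) (hsep : IsSeparating M ξ) (hU : IsModular M ξ U)
    (hE : IsCondExp M N E) (hφ : ∀ x : H →L[ℂ] H, x ∈ M → vst ξ (E x) = vst ξ x)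
    (hfac : ∀ Z : LR H →L[ℂ] LR H, Z ∈ core N U →
      (∀ S : LR H →L[ℂ] LR H, S ∈ core N U → S * Z = Z * S) →
        ∃ c : ℂ, Z = c • (1 : LR H →L[ℂ] LR H)) :
    (∀ (k : ℕ) (x : Fin k → H →L[ℂ] H), (∀ i, x i ∈ fixedBic N M ξ U) → ∀ ε : ℝ, 0 < ε →
      ∃ (J : H →L[ℂ] LR H) (Y : Fin k → LR H →L[ℂ] LR H), (∀ v : H, ‖J v‖ = ‖v‖) ∧
        (∀ (y : H →L[ℂ] H) (v : H), (J (y v) : ℝ → H) =ᵐ[volume] fun s => y (J v s)) ∧
        (∀ i, Y i ∈ crc0 N M U) ∧ (∀ i, ‖Y i‖ ≤ ‖x i‖) ∧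
        (∀ i, ‖Y i (J ξ) - J (x i ξ)‖ ≤ ε) ∧
        (∀ i j, ‖(Y i * Y j) (J ξ) - J ((x i * x j) ξ)‖ ≤ ε) ∧
        ∀ i, ‖star (Y i) (J ξ) - J (star (x i) ξ)‖ ≤ ε) ∧
    (∀ (k : ℕ) (x : Fin k → H →L[ℂ] H), (∀ i, x i ∈ fixedBic N M ξ U) →
      LinearIndependent ℂ x → ∃ Y : Fin k → LR H →L[ℂ] LR H,
        (∀ i, Y i ∈ crc0 N M U) ∧ LinearIndependent ℂ Y) ∧
    ((∀ Y Z : LR H →L[ℂ] LR H, Y ∈ crc0 N M U → Z ∈ crc0 N M U → Y * Z = Z * Y) →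
      ∀ x y : H →L[ℂ] H, x ∈ fixedBic N M ξ U → y ∈ fixedBic N M ξ U → x * y = y * x) := by
  have h1 : ∀ (k : ℕ) (x : Fin k → H →L[ℂ] H), (∀ i, x i ∈ fixedBic N M ξ U) → ∀ ε : ℝ, 0 < ε →
      ∃ (J : H →L[ℂ] LR H) (Y : Fin k → LR H →L[ℂ] LR H), (∀ v : H, ‖J v‖ = ‖v‖) ∧
        (∀ (y : H →L[ℂ] H) (v : H), (J (y v) : ℝ → H) =ᵐ[volume] fun s => y (J v s)) ∧
        (∀ i, Y i ∈ crc0 N M U) ∧ (∀ i, ‖Y i‖ ≤ ‖x i‖) ∧
        (∀ i, ‖Y i (J ξ) - J (x i ξ)‖ ≤ ε) ∧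
        (∀ i j, ‖(Y i * Y j) (J ξ) - J ((x i * x j) ξ)‖ ≤ ε) ∧
        ∀ i, ‖star (Y i) (J ξ) - J (star (x i) ξ)‖ ≤ ε := by
    intro k x hx ε hε
    exact Pool.Agent.W29.CB.mainn H M N ξ U E hNM hξ hcyc hsep hU hE hφ hfac k x
      (fun i => (hx i).1) (fun i => (hx i).2) ε hε
  refine ⟨h1, ?_, ?_⟩
  · intro k x hx hlin
    obtain ⟨ε, hε, h⟩ := Pool.Agent.W29.CB.indep hsep x (fun i => (hx i).1.1) hlin
    obtain ⟨J, Y, hJ, -, hY, -, hYε, -, -⟩ := h1 k x hx ε hε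
    exact ⟨Y, hY, h J Y hJ hYε⟩
  · intro hab x y hx hy
    have h2 : ∀ ε : ℝ, 0 < ε → ‖(x * y - y * x) ξ‖ ≤ 2 * ε := by
      intro ε hε
      obtain ⟨J, Y, hJ, -, hY, -, -, hP, -⟩ := h1 2 ![x, y] (by
        intro i
        fin_cases i
        · exact hx
        · exact hy) ε hε
      have a1 := hP 0 1
      have a2 := hP 1 0
      have a3 : Y 0 * Y 1 = Y 1 * Y 0 := hab _ _ (hY 0) (hY 1)
      have e1 : J ((x * y - y * x) ξ) = ((Y 1 * Y 0) (J ξ) - J ((y * x) ξ)) -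
          ((Y 0 * Y 1) (J ξ) - J ((x * y) ξ)) := by
        rw [a3]
        have : (x * y - y * x) ξ = (x * y) ξ - (y * x) ξ := rfl
        rw [this, map_sub]
        abel
      rw [← hJ, e1]
      have b1 : ‖(Y 0 * Y 1) (J ξ) - J ((x * y) ξ)‖ ≤ ε := a1
      have b2 : ‖(Y 1 * Y 0) (J ξ) - J ((y * x) ξ)‖ ≤ ε := a2
      calc _ ≤ ‖(Y 1 * Y 0) (J ξ) - J ((y * x) ξ)‖ + ‖(Y 0 * Y 1) (J ξ) - J ((x * y) ξ)‖ :=
            norm_sub_le _ _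
        _ ≤ ε + ε := add_le_add b2 b1
        _ = 2 * ε := by ring
    have h3 : ‖(x * y - y * x) ξ‖ ≤ 0 := by
      refine le_of_forall_pos_le_add fun ε hε => ?_
      have := h2 (ε / 2) (by positivity)
      linarith
    have h4 : (x * y - y * x) ξ = 0 := norm_le_zero_iff.1 h3
    have h5 : x * y - y * x ∈ M := sub_mem (mul_mem hx.1.1 hy.1.1) (mul_mem hy.1.1 hx.1.1)
    exact sub_eq_zero.1 (hsep _ h5 h4)

end Pool.Agent.W29.CB
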