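import Pool.Agent.W662.CB.Stmts
import Pool.Agent.W29.CB.D1
import Pool.Agent.W29.CB.D2

/-!
# Statements for the exact version (helper29, MP_357da3_an)
-/

set_option autoImplicit false

open MeasureTheory Filter Topology Complex
open scoped InnerProductSpace ENNReal

namespace Pool.Agent.W29.CB

open Pool.Agent.W662.CB

/-- INV: an element commuting with the factor `A` induces a multiple of the trace on the corner -/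
def S_INV : Prop := ∀ (K : Type) [NormedAddCommGroup K] [InnerProductSpace ℂ K] [CompleteSpace K]
  (A B : VonNeumannAlgebra K), (∀ x : K →L[ℂ] K, x ∈ A → x ∈ B) →
  (∀ Z : K →L[ℂ] K, Z ∈ A → (∀ S : K →L[ℂ] K, S ∈ A → S * Z = Z * S) → ∃ c : ℂ, Z = c • 1) →
  ∀ p : K →L[ℂ] K, p ∈ A → p * p = p → star p = p → p ≠ 0 → ∀ ζ : K, p ζ = ζ →
  (∀ Z : K →L[ℂ] K, Z ∈ B → p * Z * p = Z → ‖Z ζ‖ = ‖star Z ζ‖) →
  (∀ Z : K →L[ℂ] K, Z ∈ B → p * Z * p = Z → Z ζ = 0 → Z = 0) →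
  ∀ R : K →L[ℂ] K, R ∈ B → (∀ S : K →L[ℂ] K, S ∈ A → S * R = R * S) →
  ∃ c : ℂ, ∀ a : K →L[ℂ] K, a ∈ A → p * a * p = a → ⟪R ζ, R (a ζ)⟫_ℂ = c * ⟪ζ, a ζ⟫_ℂ

/-- BOX: boxes over all short intervals `[a, a + w]` -/
def S_BOX : Prop := ∀ (H : Type) [NormedAddCommGroup H] [InnerProductSpace ℂ H] [CompleteSpace H]
  (M : VonNeumannAlgebra H) (ξ : H) (U : ℝ → H →L[ℂ] H), IsModular M ξ U →
  ∀ κ : (H →L[ℂ] H) →⋆ₐ[ℂ] (LR H →L[ℂ] LR H), (∀ y : H →L[ℂ] H, IsConst y (κ y)) →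
  ∃ e : ℝ → LR H →L[ℂ] LR H,
    (∀ t : ℝ, IsMulOp (fun w : ℝ => Complex.exp (2 * Real.pi * I * t * w)) (e t)) ∧
    ∀ δ : ℝ, 0 < δ → δ ≤ 1 → ∃ w0 : ℝ, 0 < w0 ∧ ∀ w a : ℝ, 0 < w → w ≤ w0 →
      ∃ (J : H →L[ℂ] LR H) (E : ℂ → LR H →L[ℂ] LR H),
        BoxP U κ (fun t => Complex.exp (-(2 * Real.pi * I * t * a)) • (e t * κ (U t))) J E (1 / w) δ ∧
        (∀ v : H, (J v : ℝ → H) =ᵐ[volume] fun s => Set.indicator (Set.Icc a (a + w))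
          (fun _ => (((Real.sqrt w)⁻¹ : ℝ) : ℂ) • v) s) ∧
        IsMulOp (Set.indicator (Set.Icc a (a + w)) (fun _ => (1 : ℂ))) (E 0)

end Pool.Agent.W29.CB
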